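import Pool.Agent.Lib.PBWB.Basis

/-!
# Derivations of the free algebra and their truncated exponentials

`wt : I → ℕ` is a weight on the generators; `FG F wt m` is the span of the words of weight at least `m`. A derivation which
raises the weight by one has a truncated exponential which is multiplicative up to terms of large weight.
-/

namespace Pool.Agent.Lib.MP_a5a771_al.LD

open PBWB

section

variable {F I : Type*} [Field F]

/-- The algebra map `x ↦ x + ε D x` of the derivation `D` with the values `c` on the generators. -/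
noncomputable def derA (c : I → FreeAlgebra F I) :
    FreeAlgebra F I →ₐ[F] TrivSqZeroExt (FreeAlgebra F I) (FreeAlgebra F I) :=
  FreeAlgebra.lift F fun i => TrivSqZeroExt.inl (FreeAlgebra.ι F i) + TrivSqZeroExt.inr (c i)

theorem derA_fst (c : I → FreeAlgebra F I) (x : FreeAlgebra F I) : (derA c x).fst = x := by
  have h : (TrivSqZeroExt.fstHom F (FreeAlgebra F I) (FreeAlgebra F I)).comp (derA c) =
      AlgHom.id F (FreeAlgebra F I) := by
    apply FreeAlgebra.hom_ext
    funext i
    simp [derA]
  exact DFunLike.congr_fun h x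

/-- The derivation of the free algebra with the values `c` on the generators. -/
noncomputable def der (c : I → FreeAlgebra F I) : FreeAlgebra F I →ₗ[F] FreeAlgebra F I where
  toFun x := (derA c x).snd
  map_add' x y := by rw [map_add, TrivSqZeroExt.snd_add]
  map_smul' a x := by rw [map_smul, TrivSqZeroExt.snd_smul, RingHom.id_apply]

theorem der_ι (c : I → FreeAlgebra F I) (i : I) : der c (FreeAlgebra.ι F i) = c i := by
  show (derA c (FreeAlgebra.ι F i)).snd = c i
  simp [derA]

theorem der_mul (c : I → FreeAlgebra F I) (x y : FreeAlgebra F I) :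
    der c (x * y) = der c x * y + x * der c y := by
  show (derA c (x * y)).snd = (derA c x).snd * y + x * (derA c y).snd
  rw [map_mul, TrivSqZeroExt.snd_mul, derA_fst, derA_fst, smul_eq_mul, MulOpposite.smul_eq_mul_unop,
    MulOpposite.unop_op, add_comm]

theorem der_one (c : I → FreeAlgebra F I) : der c 1 = 0 := by
  show (derA c 1).snd = 0
  rw [map_one, TrivSqZeroExt.snd_one]

theorem der_add (c c' : I → FreeAlgebra F I) (x : FreeAlgebra F I) :
    der (fun i => c i + c' i) x = der c x + der c' x := by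
  induction x using FreeAlgebra.induction with
  | grade0 r =>
    rw [Algebra.algebraMap_eq_smul_one, map_smul, map_smul, map_smul, der_one, der_one, der_one,
      smul_zero, add_zero]
  | grade1 i => rw [der_ι, der_ι, der_ι]
  | mul x y hx hy =>
    rw [der_mul, der_mul, der_mul, hx, hy]
    noncomm_ring
  | add x y hx hy =>
    rw [map_add, map_add, map_add, hx, hy]
    abel

variable {wt : I → ℕ}

theorem der_fw {c : I → FreeAlgebra F I} {k : ℕ} (hc : ∀ i, c i ∈ FG F wt (wt i + k)) (w : List I) :
    der c (fw F w) ∈ FG F wt (wgt wt w + k) := by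
  induction w with
  | nil =>
    rw [fw_nil, der_one]
    exact zero_mem _
  | cons i w ih =>
    rw [fw_cons, der_mul, der_ι, wgt_cons]
    refine add_mem ?_ ?_
    · have h1 : fw F w ∈ FG F wt (wgt wt w) := Submodule.subset_span ⟨w, le_rfl, rfl⟩
      have h2 := FG_mul wt (hc i) h1
      refine FG_anti wt ?_ h2
      omega
    · have h1 : FreeAlgebra.ι F i ∈ FG F wt (wt i) :=
        Submodule.subset_span ⟨[i], by simp [wgt], (fw_single i).symm⟩
      have h2 := FG_mul wt h1 ih
      refine FG_anti wt ?_ h2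
      omega

/-- A derivation which raises the weight of the generators by `k` raises all weights by `k`. -/
theorem der_mem {c : I → FreeAlgebra F I} {k : ℕ} (hc : ∀ i, c i ∈ FG F wt (wt i + k)) {m : ℕ}
    {x : FreeAlgebra F I} (hx : x ∈ FG F wt m) : der c x ∈ FG F wt (m + k) := by
  have h : FG F wt m ≤ (FG F wt (m + k)).comap (der c) := by
    refine Submodule.span_le.2 ?_
    rintro _ ⟨w, hw, rfl⟩
    exact FG_anti wt (Nat.add_le_add_right hw k) (der_fw hc w)
  exact h hx

theorem ι_mem (i : I) : FreeAlgebra.ι F i ∈ FG F wt (wt i) :=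
  Submodule.subset_span ⟨[i], by simp [wgt], (fw_single i).symm⟩

theorem pow_mem {c : I → FreeAlgebra F I} (hc : ∀ i, c i ∈ FG F wt (wt i + 1)) (n : ℕ) {m : ℕ}
    {x : FreeAlgebra F I} (hx : x ∈ FG F wt m) : ((der c) ^ n) x ∈ FG F wt (m + n) := by
  induction n with
  | zero => exact hx
  | succ n ih =>
    rw [pow_succ', Module.End.mul_apply]
    exact der_mem hc ih

/-- The divided powers of the derivation. -/
noncomputable def dp (c : I → FreeAlgebra F I) (n : ℕ) : FreeAlgebra F I →ₗ[F] FreeAlgebra F I :=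
  ((n.factorial : F)⁻¹) • (der c) ^ n

theorem dp_zero (c : I → FreeAlgebra F I) (x : FreeAlgebra F I) : dp c 0 x = x := by
  simp [dp]

theorem dp_one (c : I → FreeAlgebra F I) (x : FreeAlgebra F I) : dp c 1 x = der c x := by
  simp [dp]

theorem dp_mem {c : I → FreeAlgebra F I} (hc : ∀ i, c i ∈ FG F wt (wt i + 1)) (n : ℕ) {m : ℕ}
    {x : FreeAlgebra F I} (hx : x ∈ FG F wt m) : dp c n x ∈ FG F wt (m + n) := by
  rw [dp, LinearMap.smul_apply]
  exact Submodule.smul_mem _ _ (pow_mem hc n hx)

/-- The truncated exponential of the derivation. -/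
noncomputable def tex (M : ℕ) (c : I → FreeAlgebra F I) : FreeAlgebra F I →ₗ[F] FreeAlgebra F I :=
  ∑ n ∈ Finset.range M, dp c n

theorem tex_apply (M : ℕ) (c : I → FreeAlgebra F I) (x : FreeAlgebra F I) :
    tex M c x = ∑ n ∈ Finset.range M, dp c n x := by
  rw [tex, LinearMap.sum_apply]

theorem tex_mem {c : I → FreeAlgebra F I} (hc : ∀ i, c i ∈ FG F wt (wt i + 1)) (M : ℕ) {m : ℕ}
    {x : FreeAlgebra F I} (hx : x ∈ FG F wt m) : tex M c x ∈ FG F wt m := by
  rw [tex_apply]
  refine Submodule.sum_mem _ fun n _ => ?_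
  exact FG_anti wt (Nat.le_add_right m n) (dp_mem hc n hx)

theorem tex_sub_mem {c : I → FreeAlgebra F I} (hc : ∀ i, c i ∈ FG F wt (wt i + 1)) {M : ℕ} (hM : 0 < M)
    {m : ℕ} {x : FreeAlgebra F I} (hx : x ∈ FG F wt m) : tex M c x - x ∈ FG F wt (m + 1) := by
  obtain ⟨N, rfl⟩ : ∃ N, M = N + 1 := ⟨M - 1, by omega⟩
  rw [tex_apply, Finset.sum_range_succ', dp_zero, add_sub_cancel_right]
  refine Submodule.sum_mem _ fun n _ => ?_
  exact FG_anti wt (by omega) (dp_mem hc (n + 1) hx)

end

section

variable {F I : Type*} [Field F] [CharZero F] {wt : I → ℕ}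

/-- Leibniz rule for the divided powers. -/
theorem dp_mul (c : I → FreeAlgebra F I) (n : ℕ) (x y : FreeAlgebra F I) :
    dp c n (x * y) = ∑ p ∈ Finset.HasAntidiagonal.antidiagonal n, dp c p.1 x * dp c p.2 y := by
  have key : ∀ n, ((der c) ^ n) (x * y) = ∑ p ∈ Finset.HasAntidiagonal.antidiagonal n,
      (n.choose p.1 : F) • (((der c) ^ p.1) x * ((der c) ^ p.2) y) := by
    intro n
    induction n with
    | zero => simp
    | succ n ih =>
      rw [pow_succ', Module.End.mul_apply, ih, map_sum]
      have h1 : ∀ p ∈ Finset.HasAntidiagonal.antidiagonal n,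
          der c ((n.choose p.1 : F) • (((der c) ^ p.1) x * ((der c) ^ p.2) y)) =
            (n.choose p.1 : F) • (((der c) ^ (p.1 + 1)) x * ((der c) ^ p.2) y) +
              (n.choose p.1 : F) • (((der c) ^ p.1) x * ((der c) ^ (p.2 + 1)) y) := by
        intro p _
        rw [map_smul, der_mul, smul_add, pow_succ', pow_succ', Module.End.mul_apply,
          Module.End.mul_apply]
      rw [Finset.sum_congr rfl h1, Finset.sum_add_distrib]
      have h2 := Finset.sum_antidiagonal_choose_succ_nsmul (M := FreeAlgebra F I)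
        (fun a b => ((der c) ^ a) x * ((der c) ^ b) y) n
      simp only [← Nat.cast_smul_eq_nsmul F] at h2
      rw [h2, add_comm]
      congr 1
      refine Finset.sum_congr rfl fun p hp => ?_
      have h3 : p.1 + p.2 = n := Finset.HasAntidiagonal.mem_antidiagonal.1 hp
      have h4 : n.choose p.2 = n.choose p.1 := by
        rw [← h3]
        exact (Nat.choose_symm_add).symm
      rw [h4]
  rw [dp, LinearMap.smul_apply, key, Finset.smul_sum]
  refine Finset.sum_congr rfl fun p hp => ?_
  have h3 : p.1 + p.2 = n := Finset.HasAntidiagonal.mem_antidiagonal.1 hp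
  rw [dp, dp, LinearMap.smul_apply, LinearMap.smul_apply, smul_mul_smul_comm, smul_smul]
  congr 1
  have h5 : (n.choose p.1 : F) * (p.1.factorial : F) * (p.2.factorial : F) = (n.factorial : F) := by
    have h6 := Nat.choose_mul_factorial_mul_factorial (show p.1 ≤ n by omega)
    rw [show n - p.1 = p.2 by omega] at h6
    exact_mod_cast h6
  have h6 : (n.factorial : F) ≠ 0 := Nat.cast_ne_zero.2 n.factorial_ne_zero
  have h7 : (p.1.factorial : F) ≠ 0 := Nat.cast_ne_zero.2 p.1.factorial_ne_zero
  have h8 : (p.2.factorial : F) ≠ 0 := Nat.cast_ne_zero.2 p.2.factorial_ne_zero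
  field_simp
  exact h5

/-- The truncated exponential is multiplicative up to terms of large weight. -/
theorem tex_mul {c : I → FreeAlgebra F I} (hc : ∀ i, c i ∈ FG F wt (wt i + 1)) (M : ℕ) {m m' : ℕ}
    {x y : FreeAlgebra F I} (hx : x ∈ FG F wt m) (hy : y ∈ FG F wt m') :
    tex M c (x * y) - tex M c x * tex M c y ∈ FG F wt (m + m' + M) := by
  classical
  rw [tex_apply, tex_apply, tex_apply, Finset.sum_mul_sum, ← Finset.sum_product']
  have h1 : ∑ n ∈ Finset.range M, dp c n (x * y) =
      ∑ p ∈ (Finset.range M ×ˢ Finset.range M).filter (fun p => p.1 + p.2 < M),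
        dp c p.1 x * dp c p.2 y := by
    rw [← Finset.sum_fiberwise_of_maps_to (s := (Finset.range M ×ˢ Finset.range M).filter
      (fun p => p.1 + p.2 < M)) (t := Finset.range M) (g := fun p => p.1 + p.2)
      (fun p hp => Finset.mem_range.2 (Finset.mem_filter.1 hp).2)]
    refine Finset.sum_congr rfl fun n hn => ?_
    rw [dp_mul]
    refine Finset.sum_congr ?_ fun _ _ => rfl
    ext p
    rw [Finset.mem_range] at hn
    simp only [Finset.HasAntidiagonal.mem_antidiagonal, Finset.mem_filter, Finset.mem_product, Finset.mem_range]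
    omega
  rw [h1, ← Finset.sum_filter_add_sum_filter_not (Finset.range M ×ˢ Finset.range M)
    (fun p => p.1 + p.2 < M) (fun p => dp c p.1 x * dp c p.2 y), sub_add_cancel_left]
  refine neg_mem (Submodule.sum_mem _ fun p hp => ?_)
  have h2 := (Finset.mem_filter.1 hp).2
  refine FG_anti wt ?_ (FG_mul wt (dp_mem hc p.1 hx) (dp_mem hc p.2 hy))
  omega

end

section

variable {F I : Type*} [Field F] {wt : I → ℕ}

theorem pow_diff {c δ : I → FreeAlgebra F I} {k : ℕ} (hk : 1 ≤ k)
    (hc : ∀ i, c i ∈ FG F wt (wt i + 1)) (hδ : ∀ i, δ i ∈ FG F wt (wt i + k)) (n : ℕ) {m : ℕ}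
    {x : FreeAlgebra F I} (hx : x ∈ FG F wt m) :
    ((der fun i => c i + δ i) ^ (n + 1)) x - ((der c) ^ (n + 1)) x ∈ FG F wt (m + n + k) := by
  induction n with
  | zero =>
    rw [zero_add, pow_one, pow_one, der_add, add_sub_cancel_left]
    exact der_mem hδ hx
  | succ n ih =>
    rw [pow_succ' (der fun i => c i + δ i) (n + 1), pow_succ' (der c) (n + 1), Module.End.mul_apply,
      Module.End.mul_apply]
    have h1 : der (fun i => c i + δ i) (((der fun i => c i + δ i) ^ (n + 1)) x) -
        der c (((der c) ^ (n + 1)) x) =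
        der (fun i => c i + δ i) (((der fun i => c i + δ i) ^ (n + 1)) x - ((der c) ^ (n + 1)) x) +
          der δ (((der c) ^ (n + 1)) x) := by
      rw [map_sub, der_add c δ (((der c) ^ (n + 1)) x)]
      abel
    rw [h1]
    have hc' : ∀ i, c i + δ i ∈ FG F wt (wt i + 1) := fun i =>
      add_mem (hc i) (FG_anti wt (by omega) (hδ i))
    refine add_mem (FG_anti wt ?_ (der_mem hc' ih)) (FG_anti wt ?_ (der_mem hδ (pow_mem hc (n + 1) hx)))
    · omega
    · omega

/-- The change of the truncated exponential. -/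
theorem tex_diff {c δ : I → FreeAlgebra F I} {k : ℕ} (hk : 1 ≤ k)
    (hc : ∀ i, c i ∈ FG F wt (wt i + 1)) (hδ : ∀ i, δ i ∈ FG F wt (wt i + k)) (M : ℕ) (i : I) :
    tex (M + 2) (fun i => c i + δ i) (FreeAlgebra.ι F i) - tex (M + 2) c (FreeAlgebra.ι F i) - δ i ∈
      FG F wt (wt i + k + 1) := by
  rw [tex_apply, tex_apply, ← Finset.sum_sub_distrib, Finset.sum_range_succ', Finset.sum_range_succ',
    dp_zero, dp_zero, sub_self, add_zero, zero_add, dp_one, dp_one, der_ι, der_ι,
    add_sub_cancel_left, add_sub_cancel_right]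
  refine Submodule.sum_mem _ fun n _ => ?_
  rw [dp, dp, LinearMap.smul_apply, LinearMap.smul_apply, ← smul_sub]
  refine Submodule.smul_mem _ _ (FG_anti wt ?_ (pow_diff hk hc hδ (n + 1) (ι_mem i)))
  omega

end

end Pool.Agent.Lib.MP_a5a771_al.LD
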