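import Pool.Agent.Lib.PBWB.Basis

/-!
# The dimension of a Lie algebra is determined by its universal enveloping algebra

Growth of the filtration by the length of the products.
-/

namespace Pool.Agent.Lib.MP_a5a771_al.LD

open Module PBWB

attribute [local instance 100] LieRing.ofAssociativeRing

section Upper

variable {F L I : Type*} [Field F] [LieRing L] [LieAlgebra F L] [LinearOrder I] [Fintype I] (b : Basis I F L)

/-- The counts of the letters of a sorted word of length at most `n`. -/
def cnt (n : ℕ) (w : {w : {w : List I // w.Pairwise (· ≤ ·)} // w.1.length ≤ n}) (i : I) : Fin (n + 1) :=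
  ⟨w.1.1.count i, Nat.lt_succ_of_le (List.count_le_length.trans w.2)⟩

omit [Fintype I] in
theorem cnt_inj (n : ℕ) : Function.Injective (cnt (I := I) n) := by
  intro v w h
  apply Subtype.ext
  apply Subtype.ext
  refine List.Perm.eq_of_pairwise' v.1.2 w.1.2 (List.perm_iff_count.2 fun i => ?_)
  exact congrArg Fin.val (congrFun h i)

theorem finrank_UD_le (n : ℕ) : Module.Finite F (UD b n) ∧ finrank F (UD b n) ≤ (n + 1) ^ Fintype.card I := by
  classical
  have : Finite {w : {w : List I // w.Pairwise (· ≤ ·)} // w.1.length ≤ n} :=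
    Finite.of_injective _ (cnt_inj n)
  have := Fintype.ofFinite {w : {w : List I // w.Pairwise (· ≤ ·)} // w.1.length ≤ n}
  have h1 : UD b n ≤ Submodule.span F (Set.range
      fun w : {w : {w : List I // w.Pairwise (· ≤ ·)} // w.1.length ≤ n} => wp b w.1.1) := by
    rw [UD]
    refine Submodule.span_le.2 ?_
    rintro _ ⟨w, hw, rfl⟩
    refine (Submodule.span_mono ?_) (wp_mem b (fun _ => 0) (fun i j k _ => le_rfl) w)
    rintro _ ⟨v, h1, -, h2, rfl⟩
    exact ⟨⟨⟨v, h1⟩, h2.trans hw⟩, rfl⟩
  have h2 : Module.Finite F (Submodule.span F (Set.range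
      fun w : {w : {w : List I // w.Pairwise (· ≤ ·)} // w.1.length ≤ n} => wp b w.1.1)) :=
    FiniteDimensional.span_of_finite F (Set.finite_range _)
  refine ⟨Submodule.finiteDimensional_of_le h1, ?_⟩
  refine (Submodule.finrank_mono h1).trans ((finrank_range_le_card _).trans ?_)
  have h3 := Fintype.card_le_of_injective _ (cnt_inj (I := I) n)
  rwa [Fintype.card_fun, Fintype.card_fin] at h3

end Upper

section Lower

variable {F H J : Type*} [Field F] [LieRing H] [LieAlgebra F H] [LinearOrder J] (b' : Basis J F H)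

/-- The multiset with given multiplicities. -/
def mult {e : ℕ} (f : Fin e → J) {n : ℕ} (a : Fin e → Fin (n + 1)) : Multiset J :=
  ∑ k, (a k : ℕ) • ({f k} : Multiset J)

omit [LinearOrder J] in
theorem count_mult [DecidableEq J] {e : ℕ} (f : Fin e → J) (hf : Function.Injective f) {n : ℕ}
    (a : Fin e → Fin (n + 1)) (k : Fin e) : (mult f a).count (f k) = a k := by
  rw [mult, Multiset.count_sum', Finset.sum_eq_single k]
  · rw [Multiset.count_nsmul, Multiset.count_singleton_self, mul_one]
  · intro l _ hl
    rw [Multiset.count_nsmul, Multiset.count_singleton, if_neg (fun h => hl (hf h).symm), mul_zero]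
  · intro h
    exact absurd (Finset.mem_univ k) h

omit [LinearOrder J] in
theorem card_mult {e : ℕ} (f : Fin e → J) {n : ℕ} (a : Fin e → Fin (n + 1)) :
    Multiset.card (mult f a) ≤ e * n := by
  rw [mult, Multiset.card_sum]
  refine (Finset.sum_le_card_nsmul _ _ n fun k _ => ?_).trans (by simp)
  rw [Multiset.card_nsmul, Multiset.card_singleton, mul_one]
  exact Nat.lt_succ_iff.1 (a k).2

omit [LinearOrder J] in
theorem mem_mult {e : ℕ} (f : Fin e → J) {n : ℕ} (a : Fin e → Fin (n + 1)) {x : J} (hx : x ∈ mult f a) :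
    ∃ k, f k = x := by
  rw [mult, Multiset.mem_sum] at hx
  obtain ⟨k, -, hk⟩ := hx
  exact ⟨k, (Multiset.mem_singleton.1 (Multiset.mem_of_mem_nsmul hk)).symm⟩

/-- The sorted word with given multiplicities. -/
def sw {e : ℕ} (f : Fin e → J) {n : ℕ} (a : Fin e → Fin (n + 1)) : {w : List J // w.Pairwise (· ≤ ·)} :=
  ⟨(mult f a).sort (· ≤ ·), Multiset.pairwise_sort _ _⟩

theorem sw_inj {e : ℕ} (f : Fin e → J) (hf : Function.Injective f) {n : ℕ} :
    Function.Injective (sw f (n := n)) := by
  intro a a' h
  have h1 : mult f a = mult f a' := by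
    rw [← Multiset.sort_eq (mult f a) (· ≤ ·), ← Multiset.sort_eq (mult f a') (· ≤ ·)]
    exact congrArg _ (congrArg Subtype.val h)
  funext k
  apply Fin.ext
  rw [← count_mult f hf a k, ← count_mult f hf a' k, h1]

end Lower

section Main

variable {F L H : Type*} [Field F] [LieRing L] [LieAlgebra F L] [LieRing H] [LieAlgebra F H]

theorem mem_UD {I : Type*} [LinearOrder I] (b : Basis I F L) (u : UniversalEnvelopingAlgebra F L) :
    ∃ m, u ∈ UD b m := by
  refine ⟨((pbw b).repr u).support.sup fun w => w.1.length, (mem_UD_iff b).2 fun w hw => ?_⟩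
  exact Finset.le_sup (f := fun w : {w : List I // w.Pairwise (· ≤ ·)} => w.1.length)
    (Finsupp.mem_support_iff.2 hw)

theorem word_mem {I J : Type*} [LinearOrder I] (b : Basis I F L) (b' : Basis J F H)
    (φ : UniversalEnvelopingAlgebra F H →ₐ[F] UniversalEnvelopingAlgebra F L) {k : ℕ} (w : List J)
    (hk : ∀ x ∈ w, φ (UniversalEnvelopingAlgebra.ι F (b' x)) ∈ UD b k) :
    φ (wp b' w) ∈ UD b (k * w.length) := by
  induction w with
  | nil =>
    rw [wp_nil, map_one]
    exact Submodule.subset_span ⟨[], by simp, rfl⟩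
  | cons x w ih =>
    rw [wp_cons, map_mul]
    have h1 := UD_mul b (hk x List.mem_cons_self) (ih fun y hy => hk y (List.mem_cons_of_mem _ hy))
    refine UD_mono b ?_ h1
    rw [List.length_cons]
    ring_nf
    exact le_rfl

/-- The dimension does not drop under an injective map of the universal enveloping algebras. -/
theorem rank_le [Module.Finite F L]
    (φ : UniversalEnvelopingAlgebra F H →ₐ[F] UniversalEnvelopingAlgebra F L)
    (hφ : Function.Injective φ) : Module.rank F H ≤ finrank F L := by
  classical
  by_contra hlt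
  rw [not_le] at hlt
  obtain ⟨s, hs, hsi⟩ := exists_finset_linearIndependent_of_le_rank (R := F) (M := H)
    (n := finrank F L + 1) (by
      rw [Nat.cast_add, Nat.cast_one, ← Cardinal.succ_natCast]
      exact Order.succ_le_of_lt hlt)
  -- bases
  let b := Module.finBasis F L
  have hsi' : LinearIndepOn F id (↑s : Set H) := hsi
  let b' := Basis.extend hsi'
  let _ : LinearOrder (hsi'.extend (Set.subset_univ _)) := linearOrderOfSTO WellOrderingRel
  let g : Fin (finrank F L + 1) ≃ s := (s.equivFinOfCardEq hs).symm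
  let f : Fin (finrank F L + 1) → hsi'.extend (Set.subset_univ _) := fun k =>
    ⟨(g k : H), hsi'.subset_extend (Set.subset_univ _) (g k).2⟩
  have hf : Function.Injective f := by
    intro k l h
    apply g.injective
    apply Subtype.ext
    have h1 : ((f k : hsi'.extend (Set.subset_univ _)) : H) = f l := congrArg Subtype.val h
    exact h1
  have h1 : ∀ k, ∃ m, φ (UniversalEnvelopingAlgebra.ι F (b' (f k))) ∈ UD b m := fun k => mem_UD b _
  choose m hm using h1
  let M := Finset.univ.sup m
  have hM : ∀ k, φ (UniversalEnvelopingAlgebra.ι F (b' (f k))) ∈ UD b M := fun k =>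
    UD_mono b (Finset.le_sup (Finset.mem_univ k)) (hm k)
  -- the inequality
  have key : ∀ n : ℕ, (n + 1) ^ (finrank F L + 1) ≤
      (M * ((finrank F L + 1) * n) + 1) ^ finrank F L := by
    intro n
    obtain ⟨h2, h3⟩ := finrank_UD_le b (M * ((finrank F L + 1) * n))
    rw [Fintype.card_fin] at h3
    refine le_trans ?_ h3
    have h4 : ∀ a : Fin (finrank F L + 1) → Fin (n + 1), φ (wp b' (sw f a).1) ∈
        UD b (M * ((finrank F L + 1) * n)) := by
      intro a
      have h5 := word_mem b b' φ (k := M) (sw f a).1 (fun x hx => by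
        obtain ⟨k, rfl⟩ := mem_mult f a ((Multiset.mem_sort (· ≤ ·)).1 hx)
        exact hM k)
      refine UD_mono b (Nat.mul_le_mul_left M ?_) h5
      have h6 : (sw f a).1.length = Multiset.card (mult f a) := Multiset.length_sort _
      rw [h6]
      exact card_mult f a
    have h5 : LinearIndependent F fun a : Fin (finrank F L + 1) → Fin (n + 1) =>
        (⟨φ (wp b' (sw f a).1), h4 a⟩ : UD b (M * ((finrank F L + 1) * n))) := by
      apply LinearIndependent.of_comp (UD b (M * ((finrank F L + 1) * n))).subtype
      have h6 := (li b').comp (sw f (n := n)) (sw_inj f hf)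
      exact h6.map' φ.toLinearMap (LinearMap.ker_eq_bot.2 hφ)
    have h6 := h5.fintype_card_le_finrank
    rwa [Fintype.card_fun, Fintype.card_fin, Fintype.card_fin] at h6
  -- the contradiction
  set d := finrank F L with hd
  set C := M * (d + 1) + 1 with hC
  have h2 := key (C ^ d)
  have h3 : M * ((d + 1) * C ^ d) + 1 ≤ C * (C ^ d + 1) := by
    rw [hC]
    nlinarith [Nat.zero_le (M * (d + 1)), Nat.zero_le ((M * (d + 1) + 1) ^ d)]
  have h4 := h2.trans (Nat.pow_le_pow_left h3 d)
  rw [mul_pow, pow_succ (C ^ d + 1) d, mul_comm (C ^ d)] at h4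
  have h5 : C ^ d + 1 ≤ C ^ d := Nat.le_of_mul_le_mul_left h4 (by positivity)
  omega

/-- A Lie algebra whose universal enveloping algebra is isomorphic to that of a finite-dimensional one is
finite-dimensional, of the same dimension. -/
theorem finite_and_finrank [Module.Finite F L]
    (φ : UniversalEnvelopingAlgebra F H ≃ₐ[F] UniversalEnvelopingAlgebra F L) :
    Module.Finite F H ∧ finrank F H = finrank F L := by
  have h1 := rank_le φ.toAlgHom φ.injective
  have h2 : Module.Finite F H := by
    rw [← Module.rank_lt_aleph0_iff]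
    exact lt_of_le_of_lt h1 (Cardinal.natCast_lt_aleph0)
  refine ⟨h2, le_antisymm (finrank_le_of_rank_le h1) ?_⟩
  exact finrank_le_of_rank_le (rank_le φ.symm.toAlgHom φ.symm.injective)

end Main

end Pool.Agent.Lib.MP_a5a771_al.LD
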