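import Pool.Agent.Lib.MP_a5a771_al.LD.Der
import Pool.Agent.Lib.PBWB.Pi

/-!
# The gauge lemma

Characteristic zero. `L` is a Lie algebra with a finite basis `b` and weights `wt` of the elements of the basis which are
compatible with the bracket. If `φ : U(H) → U(L)` is an algebra map and `j : L → H` a linear map, so that
`φ (ι (j (b i))) - ι (b i)` has weight at least `wt i + 1` for all `i`, and `H` has the dimension of `L`, then the Lie
algebras `L` and `H` are isomorphic.
-/

namespace Pool.Agent.Lib.MP_a5a771_al.LD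

open Module PBWB

attribute [local instance 100] LieRing.ofAssociativeRing

section

variable {F L I : Type*} [Field F] [LieRing L] [LieAlgebra F L] [LinearOrder I] (b : Basis I F L)
  {wt : I → ℕ}

omit [LinearOrder I] in
theorem lin_mem {m : ℕ} {v : L} (hv : ∀ l, b.repr v l ≠ 0 → m ≤ wt l) : lin b v ∈ FG F wt m := by
  rw [lin, Basis.constr_apply]
  refine Submodule.sum_mem _ fun l hl => Submodule.smul_mem _ _ ?_
  exact FG_anti wt (hv l (Finsupp.mem_support_iff.1 hl)) (ι_mem l)

omit [LinearOrder I] in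
theorem rel_mem (hw : WOk b wt) (i j : I) : rel b i j ∈ FG F wt (wt i + wt j) := by
  rw [rel]
  refine sub_mem (sub_mem (FG_mul wt (ι_mem i) (ι_mem j)) ?_) (lin_mem b fun l hl => hw i j l hl)
  have h := FG_mul (F := F) wt (ι_mem (wt := wt) j) (ι_mem (wt := wt) i)
  rwa [add_comm] at h

omit [LinearOrder I] in
theorem toU_mem {m : ℕ} {x : FreeAlgebra F I} (hx : x ∈ FG F wt m) : toU b x ∈ UG b wt m := by
  rw [← map_FG]
  exact ⟨x, hx, rfl⟩

omit [LinearOrder I] in
theorem exists_lift {m : ℕ} {u : UniversalEnvelopingAlgebra F L} (hu : u ∈ UG b wt m) :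
    ∃ x ∈ FG F wt m, toU b x = u := by
  rw [← map_FG] at hu
  obtain ⟨x, hx, h⟩ := hu
  exact ⟨x, hx, h⟩

/-- The derivation on the kernel. -/
theorem der_toU_ker (hw : WOk b wt) {c : I → FreeAlgebra F I} {k : ℕ}
    (hk : ∀ i j, toU b (der c (rel b i j)) ∈ UG b wt (wt i + wt j + k)) {m : ℕ} {z : FreeAlgebra F I}
    (hz : z ∈ FG F wt m) (h0 : toU b z = 0) : toU b (der c z) ∈ UG b wt (m + k) := by
  have h1 := ker_mem b wt hw hz h0
  have h2 : Submodule.span F {x | ∃ (u : List I) (i j : I) (v : List I),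
      m ≤ wgt wt u + wt i + wt j + wgt wt v ∧ x = fw F u * rel b i j * fw F v} ≤
      (UG b wt (m + k)).comap ((toU b).toLinearMap ∘ₗ der c) := by
    refine Submodule.span_le.2 ?_
    rintro _ ⟨u, i, j, v, hm, rfl⟩
    show toU b (der c (fw F u * rel b i j * fw F v)) ∈ UG b wt (m + k)
    rw [der_mul, der_mul, map_add, map_mul, map_add, map_mul, map_mul, map_mul, map_mul, toU_rel,
      mul_zero, mul_zero, zero_mul, zero_add, add_zero]
    have h3 : fw F u ∈ FG F wt (wgt wt u) := Submodule.subset_span ⟨u, le_rfl, rfl⟩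
    have h4 : fw F v ∈ FG F wt (wgt wt v) := Submodule.subset_span ⟨v, le_rfl, rfl⟩
    refine UG_anti b wt ?_ (UG_mul b wt (UG_mul b wt (toU_mem b h3) (hk i j)) (toU_mem b h4))
    omega
  exact h2 h1

/-- The derivation on elements whose values have large weight. -/
theorem der_toU (hw : WOk b wt) {c : I → FreeAlgebra F I} (hc : ∀ i, c i ∈ FG F wt (wt i + 1)) {k : ℕ}
    (hk : ∀ i j, toU b (der c (rel b i j)) ∈ UG b wt (wt i + wt j + k)) {m q r : ℕ} {z : FreeAlgebra F I}
    (hz : z ∈ FG F wt m) (hq : toU b z ∈ UG b wt q) (hmq : m ≤ q) (hr : r ≤ m + k) (hr' : r ≤ q + 1) :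
    toU b (der c z) ∈ UG b wt r := by
  obtain ⟨z1, hz1, h1⟩ := exists_lift b hq
  have h2 : toU b (der c (z - z1)) ∈ UG b wt (m + k) :=
    der_toU_ker b hw hk (sub_mem hz (FG_anti wt hmq hz1)) (by rw [map_sub, h1, sub_self])
  have h3 : toU b (der c z1) ∈ UG b wt (q + 1) := toU_mem b (der_mem hc hz1)
  have h4 : toU b (der c z) = toU b (der c (z - z1)) + toU b (der c z1) := by
    rw [← map_add, ← map_add, sub_add_cancel]
  rw [h4]
  exact add_mem (UG_anti b wt hr h2) (UG_anti b wt hr' h3)

theorem pow_toU (hw : WOk b wt) {c : I → FreeAlgebra F I} (hc : ∀ i, c i ∈ FG F wt (wt i + 1)) {k : ℕ}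
    (hk : ∀ i j, toU b (der c (rel b i j)) ∈ UG b wt (wt i + wt j + k)) (i j : I) (n : ℕ) :
    toU b (((der c) ^ (n + 1)) (rel b i j)) ∈ UG b wt (wt i + wt j + k + n) := by
  induction n with
  | zero =>
    rw [zero_add, pow_one]
    exact hk i j
  | succ n ih =>
    rcases Nat.eq_zero_or_pos k with h0 | h0
    · refine UG_anti b wt ?_ (toU_mem b (pow_mem hc (n + 1 + 1) (rel_mem b hw i j)))
      omega
    · rw [pow_succ', Module.End.mul_apply]
      refine der_toU b hw hc hk (pow_mem hc (n + 1) (rel_mem b hw i j)) ih ?_ ?_ ?_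
      · omega
      · omega
      · omega

end

section

variable {F L H I : Type*} [Field F] [LieRing L] [LieAlgebra F L] [LieRing H]
  [LieAlgebra F H] [LinearOrder I] (b : Basis I F L) {wt : I → ℕ}

omit [LinearOrder I] in
/-- The values of the composition on elements of large weight. -/
theorem phi_sub_mem (φ : UniversalEnvelopingAlgebra F H →ₐ[F] UniversalEnvelopingAlgebra F L)
    (j : L →ₗ[F] H)
    (hj : ∀ i, φ (UniversalEnvelopingAlgebra.ι F (j (b i))) - UniversalEnvelopingAlgebra.ι F (b i) ∈
      UG b wt (wt i + 1)) {m : ℕ} {v : L} (hv : ∀ l, b.repr v l ≠ 0 → m ≤ wt l) :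
    φ (UniversalEnvelopingAlgebra.ι F (j v)) - UniversalEnvelopingAlgebra.ι F v ∈ UG b wt (m + 1) := by
  have h1 : φ (UniversalEnvelopingAlgebra.ι F (j v)) - UniversalEnvelopingAlgebra.ι F v =
      (b.repr v).sum fun l a => a • (φ (UniversalEnvelopingAlgebra.ι F (j (b l))) -
        UniversalEnvelopingAlgebra.ι F (b l)) := by
    conv_lhs => rw [← b.linearCombination_repr v, Finsupp.linearCombination_apply, Finsupp.sum,
      map_sum, map_sum, map_sum, map_sum, ← Finset.sum_sub_distrib]
    refine Finset.sum_congr rfl fun l _ => ?_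
    rw [map_smul, map_smul, map_smul, map_smul]
    exact (smul_sub _ _ _).symm
  rw [h1]
  refine Submodule.sum_mem _ fun l hl => Submodule.smul_mem _ _ ?_
  refine UG_anti b wt ?_ (hj l)
  have := hv l (Finsupp.mem_support_iff.1 hl)
  omega

/-- The map `j` keeps the weights. -/
theorem low (hw : WOk b wt) (φ : UniversalEnvelopingAlgebra F H →ₐ[F] UniversalEnvelopingAlgebra F L)
    (j : L →ₗ[F] H)
    (hj : ∀ i, φ (UniversalEnvelopingAlgebra.ι F (j (b i))) - UniversalEnvelopingAlgebra.ι F (b i) ∈
      UG b wt (wt i + 1)) {m : ℕ} {v : L} (hv : φ (UniversalEnvelopingAlgebra.ι F (j v)) ∈ UG b wt m) :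
    ∀ l, b.repr v l ≠ 0 → m ≤ wt l := by
  have key : ∀ n, n ≤ m → ∀ l, b.repr v l ≠ 0 → n ≤ wt l := by
    intro n
    induction n with
    | zero => intro _ l _; exact Nat.zero_le _
    | succ n ih =>
      intro hn
      have h1 := phi_sub_mem b φ j hj (ih (by omega))
      have h2 := sub_mem (UG_anti b wt hn hv) h1
      rw [sub_sub_cancel] at h2
      exact iota_mem_UG b wt hw h2
  exact key m le_rfl

variable [CharZero F]

/-- Normalisation: the map `j` and the derivation, up to terms of large weight. -/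
theorem normalise (φ : UniversalEnvelopingAlgebra F H →ₐ[F] UniversalEnvelopingAlgebra F L)
    (hw : WOk b wt) (j₀ : L →ₗ[F] H)
    (hj₀ : ∀ i, φ (UniversalEnvelopingAlgebra.ι F (j₀ (b i))) - UniversalEnvelopingAlgebra.ι F (b i) ∈
      UG b wt (wt i + 1)) (M k : ℕ) :
    ∃ (j : L →ₗ[F] H) (c : I → FreeAlgebra F I), (∀ i, c i ∈ FG F wt (wt i + 1)) ∧
      (∀ i, pi F L (toU b (c i)) = 0) ∧
      ∀ i, φ (UniversalEnvelopingAlgebra.ι F (j (b i))) -
        toU b (tex (M + 2) c (FreeAlgebra.ι F i)) ∈ UG b wt (wt i + k + 1) := by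
  induction k with
  | zero =>
    refine ⟨j₀, fun _ => 0, fun i => zero_mem _, fun i => by rw [map_zero, map_zero], fun i => ?_⟩
    have h1 : toU b (tex (M + 2) (fun _ => 0) (FreeAlgebra.ι F i) - FreeAlgebra.ι F i) ∈
        UG b wt (wt i + 1) :=
      toU_mem b (tex_sub_mem (fun i => zero_mem _) (by omega) (ι_mem i))
    have h2 := sub_mem (hj₀ i) h1
    have h3 : toU b (FreeAlgebra.ι F i) = UniversalEnvelopingAlgebra.ι F (b i) := by
      rw [← fw_single, toU_fw, wp_single]
    rw [map_sub, h3] at h2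
    have h4 : φ (UniversalEnvelopingAlgebra.ι F (j₀ (b i))) - UniversalEnvelopingAlgebra.ι F (b i) -
        (toU b (tex (M + 2) (fun _ => 0) (FreeAlgebra.ι F i)) - UniversalEnvelopingAlgebra.ι F (b i)) =
        φ (UniversalEnvelopingAlgebra.ι F (j₀ (b i))) -
          toU b (tex (M + 2) (fun _ => 0) (FreeAlgebra.ι F i)) := by abel
    rw [h4] at h2
    exact h2
  | succ k ih =>
    obtain ⟨j, c, hc, hp, hj⟩ := ih
    have hι : ∀ i, toU b (FreeAlgebra.ι F i) = UniversalEnvelopingAlgebra.ι F (b i) := by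
      intro i
      rw [← fw_single, toU_fw, wp_single]
    set δ : I → UniversalEnvelopingAlgebra F L := fun i =>
      φ (UniversalEnvelopingAlgebra.ι F (j (b i))) - toU b (tex (M + 2) c (FreeAlgebra.ι F i)) with hδ
    have hj1 : ∀ i, φ (UniversalEnvelopingAlgebra.ι F (j (b i))) - UniversalEnvelopingAlgebra.ι F (b i) ∈
        UG b wt (wt i + 1) := by
      intro i
      have h1 : toU b (tex (M + 2) c (FreeAlgebra.ι F i) - FreeAlgebra.ι F i) ∈ UG b wt (wt i + 1) :=
        toU_mem b (tex_sub_mem hc (by omega) (ι_mem i))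
      have h2 := add_mem (UG_anti b wt (by omega) (hj i)) h1
      rw [map_sub, hι] at h2
      have h4 : φ (UniversalEnvelopingAlgebra.ι F (j (b i))) - toU b (tex (M + 2) c (FreeAlgebra.ι F i)) +
          (toU b (tex (M + 2) c (FreeAlgebra.ι F i)) - UniversalEnvelopingAlgebra.ι F (b i)) =
          φ (UniversalEnvelopingAlgebra.ι F (j (b i))) - UniversalEnvelopingAlgebra.ι F (b i) := by abel
      rwa [h4] at h2
    have hz : ∀ i, ∃ z ∈ FG F wt (wt i + (k + 1)), toU b z =
        δ i - UniversalEnvelopingAlgebra.ι F (pi F L (δ i)) := by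
      intro i
      exact exists_lift b (sub_mem (hj i) (iota_pi_mem_UG b wt (hj i)))
    choose z hz1 hz2 using hz
    refine ⟨j - j ∘ₗ b.constr F fun i => pi F L (δ i), fun i => c i + z i, fun i => ?_, fun i => ?_,
      fun i => ?_⟩
    · exact add_mem (hc i) (FG_anti wt (by omega) (hz1 i))
    · rw [map_add, map_add, hp, hz2, map_sub, pi_iota, sub_self, add_zero]
    · have h1 := phi_sub_mem b φ j hj1 (m := wt i + (k + 1)) (v := pi F L (δ i))
        fun l hl => pi_UG b wt hw (hj i) l hl
      have h2 : toU b (tex (M + 2) (fun i => c i + z i) (FreeAlgebra.ι F i) -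
          tex (M + 2) c (FreeAlgebra.ι F i) - z i) ∈ UG b wt (wt i + (k + 1) + 1) :=
        toU_mem b (tex_diff (by omega) hc hz1 M i)
      rw [map_sub (toU b), map_sub (toU b), hz2] at h2
      have h3 := add_mem h1 h2
      have h4 : φ (UniversalEnvelopingAlgebra.ι F ((j - j ∘ₗ b.constr F fun i => pi F L (δ i)) (b i))) =
          φ (UniversalEnvelopingAlgebra.ι F (j (b i))) -
            φ (UniversalEnvelopingAlgebra.ι F (j (pi F L (δ i)))) := by
        rw [LinearMap.sub_apply, LinearMap.comp_apply, Basis.constr_basis, map_sub, map_sub]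
      have h5 : φ (UniversalEnvelopingAlgebra.ι F ((j - j ∘ₗ b.constr F fun i => pi F L (δ i)) (b i))) -
          toU b (tex (M + 2) (fun i => c i + z i) (FreeAlgebra.ι F i)) =
          -(φ (UniversalEnvelopingAlgebra.ι F (j (pi F L (δ i)))) -
            UniversalEnvelopingAlgebra.ι F (pi F L (δ i)) +
            (toU b (tex (M + 2) (fun i => c i + z i) (FreeAlgebra.ι F i)) -
              toU b (tex (M + 2) c (FreeAlgebra.ι F i)) -
              (δ i - UniversalEnvelopingAlgebra.ι F (pi F L (δ i))))) := by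
        have h6 : δ i = φ (UniversalEnvelopingAlgebra.ι F (j (b i))) -
            toU b (tex (M + 2) c (FreeAlgebra.ι F i)) := rfl
        rw [h4]
        generalize pi F L (δ i) = y
        rw [h6]
        abel
      rw [h5]
      exact neg_mem h3

/-- **The gauge lemma.** -/
theorem gauge [Finite I] [Module.Finite F H] (hw : WOk b wt)
    (hdim : finrank F H = finrank F L)
    (φ : UniversalEnvelopingAlgebra F H →ₐ[F] UniversalEnvelopingAlgebra F L) (j₀ : L →ₗ[F] H)
    (hj₀ : ∀ i, φ (UniversalEnvelopingAlgebra.ι F (j₀ (b i))) - UniversalEnvelopingAlgebra.ι F (b i) ∈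
      UG b wt (wt i + 1)) : Nonempty (L ≃ₗ⁅F⁆ H) := by
  classical
  obtain ⟨B, hB⟩ : ∃ B : ℕ, ∀ i, wt i < B := by
    obtain ⟨B, hB⟩ := (Set.finite_range wt).bddAbove
    exact ⟨B + 1, fun i => Nat.lt_succ_of_le (hB ⟨i, rfl⟩)⟩
  obtain ⟨j, c, hc, hp, hj⟩ := normalise b φ hw j₀ hj₀ B B
  have hι : ∀ i, toU b (FreeAlgebra.ι F i) = UniversalEnvelopingAlgebra.ι F (b i) := by
    intro i
    rw [← fw_single, toU_fw, wp_single]
  have hj1 : ∀ i, φ (UniversalEnvelopingAlgebra.ι F (j (b i))) - UniversalEnvelopingAlgebra.ι F (b i) ∈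
      UG b wt (wt i + 1) := by
    intro i
    have h1 : toU b (tex (B + 2) c (FreeAlgebra.ι F i) - FreeAlgebra.ι F i) ∈ UG b wt (wt i + 1) :=
      toU_mem b (tex_sub_mem hc (by omega) (ι_mem i))
    have h2 := add_mem (UG_anti b wt (by omega) (hj i)) h1
    rw [map_sub, hι] at h2
    have h4 : φ (UniversalEnvelopingAlgebra.ι F (j (b i))) - toU b (tex (B + 2) c (FreeAlgebra.ι F i)) +
        (toU b (tex (B + 2) c (FreeAlgebra.ι F i)) - UniversalEnvelopingAlgebra.ι F (b i)) =
        φ (UniversalEnvelopingAlgebra.ι F (j (b i))) - UniversalEnvelopingAlgebra.ι F (b i) := by abel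
    rwa [h4] at h2
  -- the map `j` is bijective
  have hfin : Module.Finite F L := Module.Finite.of_basis b
  have hinj : Function.Injective j := by
    rw [injective_iff_map_eq_zero]
    intro v hv
    apply b.repr.injective
    rw [map_zero]
    ext l
    by_contra h
    have h1 := low b hw φ j hj1 (m := wt l + 1) (v := v)
      (by rw [hv, map_zero, map_zero]; exact zero_mem _) l h
    omega
  have hsurj : Function.Surjective j :=
    (LinearMap.injective_iff_surjective_of_finrank_eq_finrank hdim.symm).1 hinj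
  let e : L ≃ₗ[F] H := LinearEquiv.ofBijective j ⟨hinj, hsurj⟩
  have he : ∀ x, e x = j x := fun _ => rfl
  -- the difference of the brackets
  let d : I → I → L := fun i l => e.symm ⁅j (b i), j (b l)⁆ - ⁅b i, b l⁆
  have hd : ∀ i l, j (⁅b i, b l⁆ + d i l) = ⁅j (b i), j (b l)⁆ := by
    intro i l
    have h1 : ⁅b i, b l⁆ + d i l = e.symm ⁅j (b i), j (b l)⁆ := by
      show ⁅b i, b l⁆ + (e.symm ⁅j (b i), j (b l)⁆ - ⁅b i, b l⁆) = _
      abel
    rw [h1, ← he, e.apply_symm_apply]
  have hA : ∀ i, φ (UniversalEnvelopingAlgebra.ι F (j (b i))) ∈ UG b wt (wt i) := by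
    intro i
    have h1 := add_mem (UG_anti b wt (by omega) (hj i)) (toU_mem b (tex_mem hc (B + 2) (ι_mem i)))
    rwa [sub_add_cancel] at h1
  have hbr : ∀ i l, φ (UniversalEnvelopingAlgebra.ι F ⁅j (b i), j (b l)⁆) =
      φ (UniversalEnvelopingAlgebra.ι F (j (b i))) * φ (UniversalEnvelopingAlgebra.ι F (j (b l))) -
        φ (UniversalEnvelopingAlgebra.ι F (j (b l))) * φ (UniversalEnvelopingAlgebra.ι F (j (b i))) := by
    intro i l
    rw [LieHom.map_lie, LieRing.of_associative_ring_bracket, map_sub, map_mul, map_mul]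
  have hlow : ∀ i l k, b.repr (⁅b i, b l⁆ + d i l) k ≠ 0 → wt i + wt l ≤ wt k := by
    intro i l
    refine low b hw φ j hj1 ?_
    rw [hd, hbr]
    refine sub_mem (UG_mul b wt (hA i) (hA l)) ?_
    have h := UG_mul b wt (hA l) (hA i)
    rwa [add_comm] at h
  have hd0 : ∀ i l k, b.repr (d i l) k ≠ 0 → wt i + wt l ≤ wt k := by
    intro i l k hk
    by_contra hlt
    have h1 : b.repr (⁅b i, b l⁆ + d i l) k = 0 := by
      by_contra h
      exact hlt (hlow i l k h)
    have h2 : b.repr ⁅b i, b l⁆ k = 0 := by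
      by_contra h
      exact hlt (hw i l k h)
    rw [map_add, Finsupp.add_apply, h2, zero_add] at h1
    exact hk h1
  -- comparison modulo terms of large weight
  have hcmp : ∀ v : L, ∀ m, (∀ k, b.repr v k ≠ 0 → m ≤ wt k) →
      φ (UniversalEnvelopingAlgebra.ι F (j v)) - toU b (tex (B + 2) c (lin b v)) ∈
        UG b wt (m + B + 1) := by
    intro v m hv
    have h1 : φ (UniversalEnvelopingAlgebra.ι F (j v)) - toU b (tex (B + 2) c (lin b v)) =
        (b.repr v).sum fun k a => a • (φ (UniversalEnvelopingAlgebra.ι F (j (b k))) -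
          toU b (tex (B + 2) c (FreeAlgebra.ι F k))) := by
      conv_lhs => rw [← b.linearCombination_repr v, Finsupp.linearCombination_apply, Finsupp.sum,
        map_sum, map_sum, map_sum, map_sum, map_sum, map_sum, ← Finset.sum_sub_distrib]
      refine Finset.sum_congr rfl fun k _ => ?_
      rw [map_smul, map_smul, map_smul, map_smul, map_smul, map_smul, lin_basis]
      exact (smul_sub _ _ _).symm
    rw [h1]
    refine Submodule.sum_mem _ fun k hk => Submodule.smul_mem _ _ ?_
    refine UG_anti b wt ?_ (hj k)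
    have := hv k (Finsupp.mem_support_iff.1 hk)
    omega
  have hprod : ∀ i l, φ (UniversalEnvelopingAlgebra.ι F (j (b i))) *
      φ (UniversalEnvelopingAlgebra.ι F (j (b l))) -
        toU b (tex (B + 2) c (FreeAlgebra.ι F i * FreeAlgebra.ι F l)) ∈
          UG b wt (wt i + wt l + B + 1) := by
    intro i l
    have h1 := UG_mul b wt (hj i) (hA l)
    have h2 := UG_mul b wt (toU_mem b (tex_mem hc (B + 2) (ι_mem i))) (hj l)
    have h3 := toU_mem b (tex_mul hc (B + 2) (ι_mem (F := F) (wt := wt) i) (ι_mem (wt := wt) l))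
    rw [map_sub (toU b), map_mul (toU b)] at h3
    have h4 := sub_mem (add_mem (UG_anti b wt (show wt i + wt l + B + 1 ≤ _ by omega) h1)
      (UG_anti b wt (show wt i + wt l + B + 1 ≤ _ by omega) h2))
      (UG_anti b wt (show wt i + wt l + B + 1 ≤ _ by omega) h3)
    have h5 : φ (UniversalEnvelopingAlgebra.ι F (j (b i))) *
        φ (UniversalEnvelopingAlgebra.ι F (j (b l))) -
          toU b (tex (B + 2) c (FreeAlgebra.ι F i * FreeAlgebra.ι F l)) =
        (φ (UniversalEnvelopingAlgebra.ι F (j (b i))) - toU b (tex (B + 2) c (FreeAlgebra.ι F i))) *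
            φ (UniversalEnvelopingAlgebra.ι F (j (b l))) +
          toU b (tex (B + 2) c (FreeAlgebra.ι F i)) *
            (φ (UniversalEnvelopingAlgebra.ι F (j (b l))) - toU b (tex (B + 2) c (FreeAlgebra.ι F l))) -
          (toU b (tex (B + 2) c (FreeAlgebra.ι F i * FreeAlgebra.ι F l)) -
            toU b (tex (B + 2) c (FreeAlgebra.ι F i)) * toU b (tex (B + 2) c (FreeAlgebra.ι F l))) := by
      noncomm_ring
    rw [h5]
    exact h4
  have hmain : ∀ i l, toU b (tex (B + 2) c (rel b i l)) - toU b (tex (B + 2) c (lin b (d i l))) ∈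
      UG b wt (wt i + wt l + B + 1) := by
    intro i l
    have h1 := hcmp _ _ (hlow i l)
    rw [hd, hbr] at h1
    have h2 := hprod i l
    have h3 := hprod l i
    rw [show wt l + wt i = wt i + wt l by omega] at h3
    have h4 := sub_mem h1 (sub_mem h2 h3)
    have h6 : toU b (tex (B + 2) c (rel b i l)) - toU b (tex (B + 2) c (lin b (d i l))) =
        φ (UniversalEnvelopingAlgebra.ι F (j (b i))) * φ (UniversalEnvelopingAlgebra.ι F (j (b l))) -
            φ (UniversalEnvelopingAlgebra.ι F (j (b l))) * φ (UniversalEnvelopingAlgebra.ι F (j (b i))) -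
            toU b (tex (B + 2) c (lin b (⁅b i, b l⁆ + d i l))) -
          (φ (UniversalEnvelopingAlgebra.ι F (j (b i))) * φ (UniversalEnvelopingAlgebra.ι F (j (b l))) -
              toU b (tex (B + 2) c (FreeAlgebra.ι F i * FreeAlgebra.ι F l)) -
            (φ (UniversalEnvelopingAlgebra.ι F (j (b l))) * φ (UniversalEnvelopingAlgebra.ι F (j (b i))) -
              toU b (tex (B + 2) c (FreeAlgebra.ι F l * FreeAlgebra.ι F i)))) := by
      rw [rel, map_sub, map_sub, map_sub, map_sub, map_add, map_add, map_add]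
      abel
    rw [h6]
    exact h4
  -- the induction
  have hK : ∀ k, k ≤ B → (∀ i l, toU b (der c (rel b i l)) ∈ UG b wt (wt i + wt l + k)) ∧
      ∀ i l r, b.repr (d i l) r ≠ 0 → wt i + wt l + k ≤ wt r := by
    intro k
    induction k with
    | zero =>
      intro _
      refine ⟨fun i l => ?_, fun i l r hr => hd0 i l r hr⟩
      exact UG_anti b wt (by omega) (toU_mem b (der_mem hc (rel_mem b hw i l)))
    | succ k ih =>
      intro hk
      obtain ⟨ih1, ih2⟩ := ih (by omega)
      have h1 : ∀ i l, toU b (der c (rel b i l)) - UniversalEnvelopingAlgebra.ι F (d i l) ∈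
          UG b wt (wt i + wt l + k + 1) := by
        intro i l
        have h2 := toU_mem b (tex_sub_mem hc (M := B + 2) (by omega) (lin_mem b (ih2 i l)))
        rw [map_sub, toU_lin] at h2
        have h3 : toU b (tex (B + 2) c (rel b i l)) - toU b (der c (rel b i l)) ∈
            UG b wt (wt i + wt l + k + 1) := by
          rw [tex_apply, Finset.sum_range_succ', Finset.sum_range_succ', dp_zero, zero_add, dp_one,
            map_add, map_add, toU_rel, add_zero, add_sub_cancel_right, map_sum]
          refine Submodule.sum_mem _ fun n _ => ?_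
          rw [dp, LinearMap.smul_apply, map_smul]
          refine Submodule.smul_mem _ _ (UG_anti b wt ?_ (pow_toU b hw hc ih1 i l (n + 1)))
          omega
        have h4 := hmain i l
        have h5 := sub_mem (add_mem (UG_anti b wt (show wt i + wt l + k + 1 ≤ _ by omega) h4) h2) h3
        have h6 : toU b (der c (rel b i l)) - UniversalEnvelopingAlgebra.ι F (d i l) =
            toU b (tex (B + 2) c (rel b i l)) - toU b (tex (B + 2) c (lin b (d i l))) +
              (toU b (tex (B + 2) c (lin b (d i l))) - UniversalEnvelopingAlgebra.ι F (d i l)) -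
              (toU b (tex (B + 2) c (rel b i l)) - toU b (der c (rel b i l))) := by abel
        rw [h6]
        exact h5
      have h2 : ∀ i l, pi F L (toU b (der c (rel b i l))) = 0 := by
        intro i l
        have h3 : ∀ v : L, pi F L (toU b (der c (lin b v))) = 0 := by
          intro v
          rw [← b.linearCombination_repr v, Finsupp.linearCombination_apply, Finsupp.sum]
          rw [map_sum, map_sum, map_sum, map_sum]
          refine Finset.sum_eq_zero fun r _ => ?_
          rw [map_smul, map_smul, map_smul, map_smul, lin_basis, der_ι, hp, smul_zero]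
        have h4 : toU b (der c (rel b i l)) =
            (toU b (c i) * UniversalEnvelopingAlgebra.ι F (b l) -
              UniversalEnvelopingAlgebra.ι F (b l) * toU b (c i)) +
            (UniversalEnvelopingAlgebra.ι F (b i) * toU b (c l) -
              toU b (c l) * UniversalEnvelopingAlgebra.ι F (b i)) -
              toU b (der c (lin b ⁅b i, b l⁆)) := by
          rw [rel, map_sub (der c), map_sub (der c), der_mul, der_mul, der_ι, der_ι,
            map_sub (toU b), map_sub (toU b), map_add (toU b), map_add (toU b), map_mul, map_mul,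
            map_mul, map_mul, hι, hι]
          abel
        rw [h4, map_sub, map_add, pi_lie, pi_lie', h3, hp, hp, zero_lie, lie_zero, add_zero, sub_zero]
      have h3 : ∀ i l r, b.repr (d i l) r ≠ 0 → wt i + wt l + (k + 1) ≤ wt r := by
        intro i l r hr
        have h4 := pi_UG b wt hw (h1 i l) r
        rw [map_sub, h2, pi_iota, zero_sub, map_neg, Finsupp.neg_apply] at h4
        exact h4 (neg_ne_zero.2 hr)
      refine ⟨fun i l => ?_, h3⟩
      have h4 : UniversalEnvelopingAlgebra.ι F (d i l) ∈ UG b wt (wt i + wt l + (k + 1)) := by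
        rw [← toU_lin b]
        exact toU_mem b (lin_mem b (h3 i l))
      have h5 := add_mem (h1 i l) h4
      rwa [sub_add_cancel] at h5
  have hdz : ∀ i l, d i l = 0 := by
    intro i l
    apply b.repr.injective
    rw [map_zero]
    ext r
    by_contra h
    have h1 := (hK B le_rfl).2 i l r h
    have h2 := hB r
    omega
  have hlie : ∀ x y, j ⁅x, y⁆ = ⁅j x, j y⁆ := by
    have h1 : ∀ i l, j ⁅b i, b l⁆ = ⁅j (b i), j (b l)⁆ := by
      intro i l
      rw [← hd i l, hdz, add_zero]
    have h2 : ∀ i y, j ⁅b i, y⁆ = ⁅j (b i), j y⁆ := by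
      intro i y
      induction b.mem_span y using Submodule.span_induction with
      | mem x hx =>
        obtain ⟨l, rfl⟩ := hx
        exact h1 i l
      | zero => rw [lie_zero, map_zero, lie_zero]
      | add x y _ _ hx hy => rw [lie_add, map_add, hx, hy, map_add, lie_add]
      | smul a x _ hx => rw [lie_smul, map_smul, hx, map_smul, lie_smul]
    intro x y
    induction b.mem_span x using Submodule.span_induction with
    | mem x hx =>
      obtain ⟨l, rfl⟩ := hx
      exact h2 l y
    | zero => rw [zero_lie, map_zero, zero_lie]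
    | add x y _ _ hx hy => rw [add_lie, map_add, hx, hy, map_add, add_lie]
    | smul a x _ hx => rw [smul_lie, map_smul, hx, map_smul, smul_lie]
  exact ⟨{ e with map_lie' := fun {x y} => hlie x y }⟩

end

end Pool.Agent.Lib.MP_a5a771_al.LD
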