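import Pool.Agent.Lib.MP_a5a771_al.LD.GK

/-!
# Solvability is determined by the universal enveloping algebra

Characteristic zero, finite dimension: a Lie algebra is solvable if and only if all finite-dimensional modules of its
universal enveloping algebra, over the algebraic closure, have a common eigenvector.
-/

namespace Pool.Agent.Lib.MP_a5a771_al.LD

open Module PBWB LieAlgebra

attribute [local instance 100] LieRing.ofAssociativeRing

section

variable {K L H : Type*} [Field K] [CharZero K] [IsAlgClosed K] [LieRing L] [LieAlgebra K L]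
  [Module.Finite K L] [IsSolvable L] [LieRing H] [LieAlgebra K H]

omit [Module.Finite K L] in
theorem exists_eig {V : Type*} [AddCommGroup V] [Module K V] [Module.Finite K V] [Nontrivial V]
    (f : L →ₗ⁅K⁆ Module.End K V) : ∃ v : V, v ≠ 0 ∧ ∀ x, ∃ c : K, f x v = c • v := by
  let _ : LieRingModule L V := LieRingModule.compLieHom V f
  let _ : LieModule K L V := LieModule.compLieHom V f
  obtain ⟨χ, hχ⟩ := LieModule.exists_nontrivial_weightSpace_of_isSolvable K L V
  obtain ⟨⟨v, hv⟩, hv0⟩ := exists_ne (0 : LieModule.weightSpace V χ)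
  rw [LieModule.mem_weightSpace] at hv
  refine ⟨v, fun h => hv0 (Subtype.ext h), fun x => ⟨χ x, ?_⟩⟩
  exact hv x

/-- A common eigenvector for the universal enveloping algebra. -/
theorem exists_eigU {V : Type*} [AddCommGroup V] [Module K V] [Module.Finite K V] [Nontrivial V]
    (ρ : UniversalEnvelopingAlgebra K L →ₐ[K] Module.End K V) :
    ∃ v : V, v ≠ 0 ∧ ∀ u, ∃ c : K, ρ u v = c • v := by
  obtain ⟨v, hv, h⟩ := exists_eig ((ρ : UniversalEnvelopingAlgebra K L →ₗ⁅K⁆ Module.End K V).comp
    (UniversalEnvelopingAlgebra.ι K))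
  refine ⟨v, hv, fun u => ?_⟩
  let b := Module.finBasis K L
  obtain ⟨x, rfl⟩ := toU_surj b u
  induction x using FreeAlgebra.induction with
  | grade0 r =>
    refine ⟨r, ?_⟩
    rw [AlgHom.commutes, AlgHom.commutes, Module.algebraMap_end_apply]
  | grade1 i =>
    obtain ⟨c, hc⟩ := h (b i)
    refine ⟨c, ?_⟩
    rw [← fw_single, toU_fw, wp_single]
    exact hc
  | mul x y hx hy =>
    obtain ⟨c, hc⟩ := hx
    obtain ⟨d, hd⟩ := hy
    refine ⟨c * d, ?_⟩
    rw [map_mul, map_mul, Module.End.mul_apply, hd, map_smul, hc, smul_smul, mul_comm]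
  | add x y hx hy =>
    obtain ⟨c, hc⟩ := hx
    obtain ⟨d, hd⟩ := hy
    refine ⟨c + d, ?_⟩
    rw [map_add, map_add, LinearMap.add_apply, hc, hd, add_smul]

/-- Over an algebraically closed field of characteristic zero a Lie algebra whose universal enveloping algebra is isomorphic
to that of a finite-dimensional solvable one is solvable. -/
theorem solvable_of_equiv
    (φ : UniversalEnvelopingAlgebra K H ≃ₐ[K] UniversalEnvelopingAlgebra K L) : IsSolvable H := by
  obtain ⟨hfin, -⟩ := finite_and_finrank φ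
  by_cases htop : radical K H = ⊤
  · have h1 : IsSolvable (radical K H) := inferInstance
    rw [htop] at h1
    exact (solvable_iff_equiv_solvable (LieIdeal.topEquiv (R := K) (L := H))).1 h1
  exfalso
  have hnt : Nontrivial (H ⧸ radical K H) := by
    rw [← not_subsingleton_iff_nontrivial]
    intro hs
    apply htop
    rw [eq_top_iff]
    intro x _
    have h1 : (LieSubmodule.Quotient.mk x : H ⧸ radical K H) = 0 := Subsingleton.elim _ _
    exact (LieSubmodule.Quotient.mk_eq_zero (radical K H)).1 h1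
  obtain ⟨v, hv, h⟩ := exists_eigU ((UniversalEnvelopingAlgebra.lift K
    (LieModule.toEnd K H (H ⧸ radical K H))).comp
      (φ.symm : UniversalEnvelopingAlgebra K L →ₐ[K] UniversalEnvelopingAlgebra K H))
  obtain ⟨x, rfl⟩ := LieSubmodule.Quotient.surjective_mk' (radical K H) v
  have hx : ∀ y : H, ∃ c : K, ⁅y, x⁆ - c • x ∈ radical K H := by
    intro y
    obtain ⟨c, hc⟩ := h (φ (UniversalEnvelopingAlgebra.ι K y))
    refine ⟨c, ?_⟩
    rw [AlgHom.comp_apply] at hc
    have h1 : (φ.symm : UniversalEnvelopingAlgebra K L →ₐ[K] UniversalEnvelopingAlgebra K H)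
        (φ (UniversalEnvelopingAlgebra.ι K y)) = UniversalEnvelopingAlgebra.ι K y :=
      φ.symm_apply_apply _
    rw [h1, UniversalEnvelopingAlgebra.lift_ι_apply, LieModule.toEnd_apply_apply] at hc
    have h2 : (LieSubmodule.Quotient.mk' (radical K H)) (⁅y, x⁆ - c • x) = 0 := by
      rw [map_sub, map_smul, LieModuleHom.map_lie, hc, sub_self]
    exact (LieSubmodule.Quotient.mk_eq_zero (radical K H)).1 h2
  let I : LieIdeal K H :=
    { carrier := {y | ∃ c : K, y - c • x ∈ radical K H}
      add_mem' := by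
        rintro y z ⟨c, hc⟩ ⟨d, hd⟩
        refine ⟨c + d, ?_⟩
        have h1 := add_mem hc hd
        rwa [show y - c • x + (z - d • x) = y + z - (c + d) • x by rw [add_smul]; abel] at h1
      zero_mem' := ⟨0, by rw [zero_smul, sub_zero]; exact zero_mem _⟩
      smul_mem' := by
        rintro a y ⟨c, hc⟩
        refine ⟨a * c, ?_⟩
        have h1 := (radical K H).smul_mem a hc
        rwa [smul_sub, smul_smul] at h1
      lie_mem := by
        rintro z y ⟨c, hc⟩
        obtain ⟨d, hd⟩ := hx z
        refine ⟨c * d, ?_⟩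
        have h1 : ⁅z, y - c • x⁆ ∈ radical K H := (radical K H).lie_mem hc
        have h2 := add_mem h1 ((radical K H).smul_mem c hd)
        rwa [show ⁅z, y - c • x⁆ + c • (⁅z, x⁆ - d • x) = ⁅z, y⁆ - (c * d) • x by
          rw [lie_sub, lie_smul, smul_sub, smul_smul]; abel] at h2 }
  have hI1 : ⁅I, I⁆ ≤ radical K H := by
    rw [LieSubmodule.lie_le_iff]
    rintro y ⟨c, hc⟩ z ⟨d, hd⟩
    have h1 : ⁅y - c • x, z⁆ ∈ radical K H := lie_mem_left K H (radical K H) _ _ hc
    have h2 : ⁅c • x, z - d • x⁆ ∈ radical K H := (radical K H).lie_mem hd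
    have h3 : ⁅y, z⁆ = ⁅y - c • x, z⁆ + ⁅c • x, z - d • x⁆ := by
      rw [sub_lie, lie_sub, lie_smul, smul_lie, smul_lie, lie_self, smul_zero, smul_zero, sub_zero]
      abel
    rw [h3]
    exact add_mem h1 h2
  have hI2 : IsSolvable I := by
    obtain ⟨k, hk⟩ := IsSolvable.solvable K (radical K H)
    rw [LieIdeal.derivedSeries_eq_bot_iff] at hk
    refine IsSolvable.mk (R := K) (k := k + 1) ?_
    rw [LieIdeal.derivedSeries_eq_bot_iff, derivedSeriesOfIdeal_add, eq_bot_iff, ← hk]
    refine derivedSeriesOfIdeal_mono ?_ k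
    rw [derivedSeriesOfIdeal_succ, derivedSeriesOfIdeal_zero]
    exact hI1
  have hI3 : I ≤ radical K H := (LieIdeal.solvable_iff_le_radical K H I).1 hI2
  have hx1 : x ∈ I := ⟨1, by rw [one_smul, sub_self]; exact zero_mem _⟩
  exact hv ((LieSubmodule.Quotient.mk_eq_zero (radical K H)).2 (hI3 hx1))

end

end Pool.Agent.Lib.MP_a5a771_al.LD
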